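import Mathlib

set_option autoImplicit false

/-!
# Multiplicatively null sets of positive integers

Helper file for `MP_9e12c1_co`: counting, multiplicatively null sets, finite unions.
-/

namespace Pool.Agent.Run7.h690.AB

open Finset

/-- The number of elements of a finite type with a property. -/
noncomputable def cnt {ι : Type} [Fintype ι] (P : ι → Prop) : ℕ := by
  classical exact (univ.filter P).card

theorem cnt_def {ι : Type} [Fintype ι] (P : ι → Prop) [DecidablePred P] :
    cnt P = (univ.filter P).card := by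
  unfold cnt
  congr 1
  ext x
  simp

theorem cnt_mono {ι : Type} [Fintype ι] {P Q : ι → Prop} (h : ∀ i, P i → Q i) :
    cnt P ≤ cnt Q := by
  classical
  rw [cnt_def, cnt_def]
  apply card_le_card
  intro x hx
  rw [mem_filter] at hx ⊢
  exact ⟨hx.1, h x hx.2⟩

theorem cnt_congr {ι : Type} [Fintype ι] {P Q : ι → Prop} (h : ∀ i, P i ↔ Q i) :
    cnt P = cnt Q :=
  le_antisymm (cnt_mono fun i => (h i).1) (cnt_mono fun i => (h i).2)

theorem cnt_or {ι : Type} [Fintype ι] (P Q : ι → Prop) :
    cnt (fun i => P i ∨ Q i) ≤ cnt P + cnt Q := by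
  classical
  rw [cnt_def, cnt_def, cnt_def, filter_or]
  exact card_union_le _ _

theorem cnt_false {ι : Type} [Fintype ι] {P : ι → Prop} (h : ∀ i, ¬ P i) : cnt P = 0 := by
  classical
  rw [cnt_def, card_eq_zero]
  exact filter_eq_empty_iff.2 fun i _ => h i

theorem cnt_inj {ι κ : Type} [Fintype ι] [Fintype κ] {P : ι → Prop} {Q : κ → Prop} (f : ι → κ)
    (hf : Function.Injective f) (h : ∀ i, P i → Q (f i)) : cnt P ≤ cnt Q := by
  classical
  rw [cnt_def, cnt_def]
  apply card_le_card_of_injOn f
  · intro x hx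
    rw [mem_coe, mem_filter] at hx
    rw [mem_coe, mem_filter]
    exact ⟨mem_univ _, h x hx.2⟩
  · exact hf.injOn

/-- Summation over the second coordinate. -/
theorem cnt_prod {ι κ : Type} [Fintype ι] [Fintype κ] (P : ι × κ → Prop) :
    cnt P = ∑ k : κ, cnt fun i => P (i, k) := by
  classical
  have h : cnt P = ∑ x : ι × κ, if P x then 1 else 0 := by
    rw [cnt_def, card_filter]
  rw [h, Fintype.sum_prod_type_right]
  refine Finset.sum_congr rfl fun k _ => ?_
  rw [cnt_def, card_filter]

/-- If every fibre is small, the whole is small. -/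
theorem cnt_prod_le {ι κ : Type} [Fintype ι] [Fintype κ] (P : ι × κ → Prop) (L M : ℕ)
    (h : ∀ k, L * cnt (fun i => P (i, k)) ≤ M) : L * cnt P ≤ M * Fintype.card κ := by
  rw [cnt_prod, Finset.mul_sum]
  calc ∑ k : κ, L * cnt (fun i => P (i, k)) ≤ ∑ _k : κ, M := Finset.sum_le_sum fun k _ => h k
    _ = M * Fintype.card κ := by
      rw [Finset.sum_const, card_univ, smul_eq_mul, mul_comm]

/-- A set of positive integers is multiplicatively null if for every `L` some finite family of
positive integers has at most the proportion `1 / L` of every dilate in the set. -/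
def Null (Z : Set ℕ) : Prop :=
  ∀ L : ℕ, ∃ (ι : Type) (_ : Fintype ι) (_ : Nonempty ι) (F : ι → ℕ), (∀ q, 0 < F q) ∧
    ∀ t, 0 < t → L * cnt (fun q => t * F q ∈ Z) ≤ Fintype.card ι

theorem Null.empty : Null ∅ := by
  intro L
  refine ⟨Unit, inferInstance, inferInstance, fun _ => 1, fun _ => one_pos, fun t _ => ?_⟩
  have h0 : cnt (fun q : Unit => t * (fun _ : Unit => 1) q ∈ (∅ : Set ℕ)) = 0 :=
    cnt_false fun _ h => h
  show L * cnt (fun q : Unit => t * (fun _ : Unit => 1) q ∈ (∅ : Set ℕ)) ≤ Fintype.card Unit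
  rw [h0, Nat.mul_zero]
  exact Nat.zero_le _

theorem Null.union {Y Z : Set ℕ} (hY : Null Y) (hZ : Null Z) : Null (Y ∪ Z) := by
  intro L
  obtain ⟨ι, hι, hι', F, hF, hFY⟩ := hY (2 * L)
  obtain ⟨κ, hκ, hκ', G, hG, hGZ⟩ := hZ (2 * L)
  refine ⟨ι × κ, inferInstance, inferInstance, fun x => F x.1 * G x.2,
    fun x => Nat.mul_pos (hF _) (hG _), fun t ht => ?_⟩
  have h1 : 2 * L * cnt (fun x : ι × κ => t * (F x.1 * G x.2) ∈ Y)
      ≤ Fintype.card ι * Fintype.card κ := by
    apply cnt_prod_le
    intro k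
    have := hFY (t * G k) (Nat.mul_pos ht (hG k))
    refine le_trans (le_of_eq ?_) this
    congr 1
    apply cnt_congr
    intro i
    have e : t * (F i * G k) = t * G k * F i := by ring
    show t * (F i * G k) ∈ Y ↔ t * G k * F i ∈ Y
    rw [e]
  have h2 : 2 * L * cnt (fun x : κ × ι => t * (F x.2 * G x.1) ∈ Z)
      ≤ Fintype.card κ * Fintype.card ι := by
    apply cnt_prod_le
    intro k
    have := hGZ (t * F k) (Nat.mul_pos ht (hF k))
    refine le_trans (le_of_eq ?_) this
    congr 1
    apply cnt_congr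
    intro i
    have e : t * (F k * G i) = t * F k * G i := by ring
    show t * (F k * G i) ∈ Z ↔ t * F k * G i ∈ Z
    rw [e]
  have h3 : cnt (fun x : ι × κ => t * (F x.1 * G x.2) ∈ Z)
      ≤ cnt (fun x : κ × ι => t * (F x.2 * G x.1) ∈ Z) :=
    cnt_inj Prod.swap Prod.swap_injective fun x hx => hx
  have h4 : cnt (fun x : ι × κ => t * (F x.1 * G x.2) ∈ Y ∪ Z)
      ≤ cnt (fun x : ι × κ => t * (F x.1 * G x.2) ∈ Y)
        + cnt (fun x : ι × κ => t * (F x.1 * G x.2) ∈ Z) :=
    (cnt_mono fun x hx => hx).trans (cnt_or _ _)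
  rw [Fintype.card_prod]
  have h5 : Fintype.card κ * Fintype.card ι = Fintype.card ι * Fintype.card κ := mul_comm _ _
  nlinarith [Nat.mul_le_mul_left L h4, Nat.mul_le_mul_left L h3]

theorem Null.biUnion {α : Type} (S : Finset α) (E : α → Set ℕ) (h : ∀ l ∈ S, Null (E l)) :
    Null {n | ∃ l ∈ S, n ∈ E l} := by
  classical
  induction S using Finset.induction_on with
  | empty =>
    have e : {n | ∃ l ∈ (∅ : Finset α), n ∈ E l} = ∅ := by
      ext n
      simp
    rw [e]
    exact Null.empty
  | insert a S ha ih =>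
    have e : {n | ∃ l ∈ insert a S, n ∈ E l} = E a ∪ {n | ∃ l ∈ S, n ∈ E l} := by
      ext n
      simp
    rw [e]
    exact (h a (mem_insert_self _ _)).union (ih fun l hl => h l (mem_insert_of_mem hl))

/-- Non-null sets: the density iteration. -/
theorem exists_large {α : Type} (S : Finset α) (E : α → Set ℕ) (h : ∀ l ∈ S, ¬ Null (E l)) :
    ∀ n : ℕ, ∃ K : ℕ, ∀ (I : Finset ℕ), K ≤ I.card → ∀ x : ℕ → ℕ, (∀ i ∈ I, 0 < x i) →
      ∃ J ⊆ I, n ≤ J.card ∧ ∀ l ∈ S, ∃ t, 0 < t ∧ ∀ i ∈ J, t * x i ∈ E l := by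
  classical
  induction S using Finset.induction_on with
  | empty =>
    intro n
    refine ⟨n, fun I hI x _ => ⟨I, subset_rfl, hI, fun l hl => ?_⟩⟩
    simp at hl
  | insert a S ha ih =>
    intro n
    obtain ⟨K, hK⟩ := ih (fun l hl => h l (mem_insert_of_mem hl)) n
    have hna := h a (mem_insert_self _ _)
    unfold Null at hna
    push Not at hna
    obtain ⟨L, hL⟩ := hna
    refine ⟨L * K + 1, fun I hI x hx => ?_⟩
    have hne : I.Nonempty := by
      rw [← card_pos]
      omega
    obtain ⟨t, ht, hlt⟩ := hL I inferInstance hne.to_subtype (fun i => x i.1)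
      (fun i => hx i.1 i.2)
    rw [Fintype.card_coe] at hlt
    set I' := I.filter fun i => t * x i ∈ E a with hI'
    have hc : cnt (fun i : I => t * x i.1 ∈ E a) ≤ I'.card := by
      have e : Fintype.card I' = I'.card := Fintype.card_coe _
      rw [← e]
      have : cnt (fun i : I => t * x i.1 ∈ E a) ≤ cnt (fun _ : I' => True) := by
        rw [cnt_def, cnt_def]
        have key : ((univ : Finset I).filter fun i => t * x i.1 ∈ E a).card ≤ I'.card := by
          apply card_le_card_of_injOn (fun i => i.1)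
          · intro i hi
            rw [mem_coe, mem_filter] at hi
            rw [mem_coe, hI', mem_filter]
            exact ⟨i.2, hi.2⟩
          · exact Subtype.val_injective.injOn
        simpa using key
      refine this.trans ?_
      rw [cnt_def]
      exact (card_filter_le _ _).trans (le_of_eq card_univ)
    have hKI : K ≤ I'.card := by
      by_contra hcon
      push Not at hcon
      have : L * cnt (fun i : I => t * x i.1 ∈ E a) ≤ L * K :=
        Nat.mul_le_mul_left _ (hc.trans hcon.le)
      omega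
    obtain ⟨J, hJ, hJn, hJl⟩ := hK I' hKI x fun i hi => hx i (mem_filter.1 hi).1
    refine ⟨J, hJ.trans (filter_subset _ _), hJn, fun l hl => ?_⟩
    rcases mem_insert.1 hl with rfl | hl
    · exact ⟨t, ht, fun i hi => (mem_filter.1 (hJ hi)).2⟩
    · exact hJl l hl

end Pool.Agent.Run7.h690.AB
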