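import Pool.Agent.Run7.h690.AB.Base

set_option autoImplicit false

/-!
# Chains of divisors whose quotients minus one avoid a multiplicatively null set

Helper file for `MP_9e12c1_co`.
-/

namespace Pool.Agent.Run7.h690.AB

open Finset

/-- `(N + 1) ^ m ≤ 2 N ^ m` for `N = 2 m`. -/
theorem pow_le_two (m : ℕ) : (2 * m + 1) ^ m ≤ 2 * (2 * m) ^ m := by
  have key : ∀ (N j : ℕ), j ≤ N → (N + 1) ^ j * (N + 1 - j) ≤ N ^ j * (N + 1) := by
    intro N j
    induction j with
    | zero => intro _; simp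
    | succ j ih =>
      intro hj
      have h1 := ih (by omega)
      obtain ⟨d, rfl⟩ : ∃ d, N = j + 1 + d := ⟨N - (j + 1), by omega⟩
      have e1 : j + 1 + d + 1 - (j + 1) = d + 1 := by omega
      have e2 : j + 1 + d + 1 - j = d + 2 := by omega
      rw [e2] at h1
      rw [e1, pow_succ, pow_succ]
      have h2 : (j + 1 + d + 1) * (d + 1) ≤ (j + 1 + d) * (d + 2) := by nlinarith
      calc (j + 1 + d + 1) ^ j * (j + 1 + d + 1) * (d + 1)
          = (j + 1 + d + 1) ^ j * ((j + 1 + d + 1) * (d + 1)) := by ring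
        _ ≤ (j + 1 + d + 1) ^ j * ((j + 1 + d) * (d + 2)) := Nat.mul_le_mul_left _ h2
        _ = ((j + 1 + d + 1) ^ j * (d + 2)) * (j + 1 + d) := by ring
        _ ≤ ((j + 1 + d) ^ j * (j + 1 + d + 1)) * (j + 1 + d) := Nat.mul_le_mul_right _ h1
        _ = (j + 1 + d) ^ j * (j + 1 + d) * (j + 1 + d + 1) := by ring
  have h := key (2 * m) m (by omega)
  have e : 2 * m + 1 - m = m + 1 := by omega
  rw [e] at h
  have h2 : (2 * m + 1) ^ m * (2 * m + 1) ≤ 2 * (2 * m) ^ m * (2 * m + 1) := by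
    calc (2 * m + 1) ^ m * (2 * m + 1) ≤ (2 * m + 1) ^ m * (2 * (m + 1)) :=
          Nat.mul_le_mul_left _ (by omega)
      _ = 2 * ((2 * m + 1) ^ m * (m + 1)) := by ring
      _ ≤ 2 * ((2 * m) ^ m * (2 * m + 1)) := Nat.mul_le_mul_left _ h
      _ = 2 * (2 * m) ^ m * (2 * m + 1) := by ring
  exact Nat.le_of_mul_le_mul_right h2 (by omega)

/-- The averaging step: multiplication by random products of the numbers `u a`. -/
theorem avg_step {ι Ω : Type} [Fintype ι] [Fintype Ω] [DecidableEq ι] [DecidableEq Ω] (F : ι → ℕ) (Z : Set ℕ)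
    (L : ℕ) (hZ : ∀ t, 0 < t → L * cnt (fun q => t * F q ∈ Z) ≤ Fintype.card ι)
    (u : ι × Ω → ℕ) (hu : ∀ a, 0 < u a) (D : Ω → ℕ) (hD : ∀ ω, 0 < D ω) :
    L * cnt (fun x : ι × (Ω × (ι × Ω → Fin (2 * Fintype.card (ι × Ω)))) =>
        F x.1 * ((D x.2.1 * ∏ a, u a ^ ((x.2.2 a : ℕ) + 1)) / u (x.1, x.2.1)) ∈ Z)
      ≤ 2 * (Fintype.card ι *
          Fintype.card (Ω × (ι × Ω → Fin (2 * Fintype.card (ι × Ω))))) := by
  set m := Fintype.card (ι × Ω) with hm
  -- reorder: fibres over `ω`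
  set P : (ι × (ι × Ω → Fin (2 * m))) × Ω → Prop := fun x =>
    F x.1.1 * ((D x.2 * ∏ a, u a ^ ((x.1.2 a : ℕ) + 1)) / u (x.1.1, x.2)) ∈ Z with hP
  have h1 : cnt (fun x : ι × (Ω × (ι × Ω → Fin (2 * m))) =>
      F x.1 * ((D x.2.1 * ∏ a, u a ^ ((x.2.2 a : ℕ) + 1)) / u (x.1, x.2.1)) ∈ Z) ≤ cnt P := by
    refine cnt_inj (fun x => ((x.1, x.2.2), x.2.1)) ?_ fun x hx => hx
    rintro ⟨a, b, c⟩ ⟨a', b', c'⟩ h
    simp only [Prod.mk.injEq] at h
    obtain ⟨⟨rfl, rfl⟩, rfl⟩ := h
    rfl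
  refine (Nat.mul_le_mul_left _ h1).trans ?_
  have h2 : L * cnt P ≤ (2 * (Fintype.card ι * (2 * m) ^ m)) * Fintype.card Ω := by
    apply cnt_prod_le
    intro ω
    -- the injection to `ι × (exponents up to 2 m + 1)`
    have hprod : ∀ (q : ι) (e : ι × Ω → Fin (2 * m)),
        (∏ a, u a ^ ((e a : ℕ) + 1)) / u (q, ω)
          = ∏ a, u a ^ (if a = (q, ω) then (e a : ℕ) else (e a : ℕ) + 1) := by
      intro q e
      apply Nat.div_eq_of_eq_mul_left (hu _)
      rw [← Finset.mul_prod_erase univ (fun a => u a ^ ((e a : ℕ) + 1)) (mem_univ (q, ω)),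
        ← Finset.mul_prod_erase univ
          (fun a => u a ^ (if a = (q, ω) then (e a : ℕ) else (e a : ℕ) + 1)) (mem_univ (q, ω))]
      have e1 : ∏ a ∈ univ.erase (q, ω),
          u a ^ (if a = (q, ω) then (e a : ℕ) else (e a : ℕ) + 1)
            = ∏ a ∈ univ.erase (q, ω), u a ^ ((e a : ℕ) + 1) := by
        refine Finset.prod_congr rfl fun a ha => ?_
        rw [if_neg (Finset.ne_of_mem_erase ha)]
      rw [e1]
      simp only [if_true]
      rw [pow_succ]
      ring
    have hinj : cnt (fun x : ι × (ι × Ω → Fin (2 * m)) => P (x, ω)) ≤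
        cnt (fun y : ι × (ι × Ω → Fin (2 * m + 1)) =>
          D ω * (∏ a, u a ^ (y.2 a : ℕ)) * F y.1 ∈ Z) := by
      refine cnt_inj (fun x => (x.1, fun a => if a = (x.1, ω) then (x.2 a).castSucc
        else (x.2 a).succ)) ?_ ?_
      · rintro ⟨q, e⟩ ⟨q', e'⟩ h
        simp only [Prod.mk.injEq] at h
        obtain ⟨rfl, h⟩ := h
        congr 1
        funext a
        have ha := congrFun h a
        by_cases hc : a = (q, ω)
        · simp only [hc, if_true] at ha
          rw [hc]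
          exact Fin.castSucc_injective _ ha
        · simp only [hc, if_false] at ha
          exact Fin.succ_injective _ ha
      · rintro ⟨q, e⟩ hx
        simp only [hP] at hx
        have hdvd : u (q, ω) ∣ ∏ a, u a ^ ((e a : ℕ) + 1) := by
          refine dvd_trans ?_ (Finset.dvd_prod_of_mem _ (mem_univ (q, ω)))
          exact dvd_pow_self _ (by omega)
        rw [Nat.mul_div_assoc _ hdvd, hprod q e] at hx
        have e2 : (∏ a, u a ^ (if a = (q, ω) then (e a : ℕ) else (e a : ℕ) + 1))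
            = ∏ a, u a ^ (((if a = (q, ω) then (e a).castSucc else (e a).succ) :
                Fin (2 * m + 1)) : ℕ) := by
          refine Finset.prod_congr rfl fun a _ => ?_
          congr 1
          split_ifs <;> simp
        rw [e2, mul_comm] at hx
        exact hx
    refine (Nat.mul_le_mul_left _ hinj).trans ?_
    have h3 : L * cnt (fun y : ι × (ι × Ω → Fin (2 * m + 1)) =>
        D ω * (∏ a, u a ^ (y.2 a : ℕ)) * F y.1 ∈ Z) ≤
        Fintype.card ι * Fintype.card (ι × Ω → Fin (2 * m + 1)) := by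
      apply cnt_prod_le
      intro g
      exact hZ (D ω * ∏ a, u a ^ (g a : ℕ))
        (Nat.mul_pos (hD ω) (Finset.prod_pos fun a _ => pow_pos (hu a) _))
    refine h3.trans ?_
    rw [Fintype.card_fun, Fintype.card_fin, ← hm]
    calc Fintype.card ι * (2 * m + 1) ^ m ≤ Fintype.card ι * (2 * (2 * m) ^ m) :=
          Nat.mul_le_mul_left _ (pow_le_two m)
      _ = 2 * (Fintype.card ι * (2 * m) ^ m) := by ring
  refine h2.trans (le_of_eq ?_)
  rw [Fintype.card_prod, Fintype.card_fun, Fintype.card_fin, ← hm]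
  ring

end Pool.Agent.Run7.h690.AB
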