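import Pool.Agent.Run7.h690.AB.Chain

set_option autoImplicit false

/-!
# The pattern `a, b, a (b + 1)` is partition regular

Helper file for `MP_9e12c1_co`.
-/

namespace Pool.Agent.Run7.h690.AB

open Finset

theorem chain_aux {ι : Type} [Fintype ι] [Nonempty ι] (F : ι → ℕ) (Z : Set ℕ)
    (L : ℕ) (hZ : ∀ t, 0 < t → L * cnt (fun q => t * F q ∈ Z) ≤ Fintype.card ι) (k : ℕ) :
    ∃ (Ω : Type) (_ : Fintype Ω) (_ : Nonempty Ω) (y : ℕ → Ω → ℕ) (D : Ω → ℕ),
      (∀ ω, 0 < D ω) ∧
      (∀ i j, i < j → j ≤ k → ∀ ω, y i ω < y j ω) ∧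
      (∀ i j, i < j → j ≤ k → ∀ ω q, (1 + F q * y i ω) ∣ (y j ω - y i ω)) ∧
      (∀ i, i < k → ∀ ω q, (1 + F q * y i ω) ∣ D ω) ∧
      (∀ i j, i < j → j ≤ k → L * cnt (fun x : ι × Ω =>
        F x.1 * ((y j x.2 - y i x.2) / (1 + F x.1 * y i x.2)) ∈ Z)
          ≤ 2 * (Fintype.card ι * Fintype.card Ω)) ∧
      (∀ i, i < k → ∀ c, L * cnt (fun x : ι × Ω =>
        F x.1 * ((y k x.2 - y i x.2 + c * D x.2) / (1 + F x.1 * y i x.2)) ∈ Z)
          ≤ 2 * (Fintype.card ι * Fintype.card Ω)) := by
  classical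
  induction k with
  | zero =>
    refine ⟨Unit, inferInstance, inferInstance, fun _ _ => 0, fun _ => 1, fun _ => one_pos,
      ?_, ?_, ?_, ?_, ?_⟩
    · intro i j h1 h2; omega
    · intro i j h1 h2; omega
    · intro i h1; omega
    · intro i j h1 h2; omega
    · intro i h1; omega
  | succ k ih =>
    obtain ⟨Ω, hΩ, hΩ', y, D, hD, hlt, hdvd, hdvdD, hcnt, hcntc⟩ := ih
    have hmpos : 0 < Fintype.card (ι × Ω) := Fintype.card_pos
    have hne : Nonempty (ι × Ω → Fin (2 * Fintype.card (ι × Ω))) :=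
      ⟨fun _ => ⟨0, by omega⟩⟩
    set φ : (ι × Ω → Fin (2 * Fintype.card (ι × Ω))) → ℕ :=
      fun e => ∏ a : ι × Ω, (1 + F a.1 * y k a.2) ^ ((e a : ℕ) + 1) with hφ
    have hφpos : ∀ e, 0 < φ e := fun e => Finset.prod_pos fun a _ => pow_pos (by omega) _
    have hφdvd : ∀ e q ω, (1 + F q * y k ω) ∣ φ e := by
      intro e q ω
      refine dvd_trans (dvd_pow_self _ (by omega : (e (q, ω) : ℕ) + 1 ≠ 0)) ?_
      exact Finset.dvd_prod_of_mem
        (fun a : ι × Ω => (1 + F a.1 * y k a.2) ^ ((e a : ℕ) + 1)) (mem_univ (q, ω))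
    set y' : ℕ → Ω × (ι × Ω → Fin (2 * Fintype.card (ι × Ω))) → ℕ :=
      fun j x => if j ≤ k then y j x.1 else y k x.1 + D x.1 * φ x.2 with hy'
    set D' : Ω × (ι × Ω → Fin (2 * Fintype.card (ι × Ω))) → ℕ :=
      fun x => D x.1 * φ x.2 with hD'
    have hyle : ∀ j x, j ≤ k → y' j x = y j x.1 := by
      intro j x hj
      simp only [hy', hj, if_true]
    have hysucc : ∀ x, y' (k + 1) x = y k x.1 + D x.1 * φ x.2 := by
      intro x
      simp only [hy']
      rw [if_neg (by omega)]
    have hyle' : ∀ i, i ≤ k → ∀ ω, y i ω ≤ y k ω := by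
      intro i hi ω
      rcases Nat.lt_or_ge i k with h | h
      · exact (hlt i k h le_rfl ω).le
      · have : i = k := by omega
        rw [this]
    have hcard : Fintype.card ι * Fintype.card (Ω × (ι × Ω → Fin (2 * Fintype.card (ι × Ω))))
        = Fintype.card ι * Fintype.card Ω
          * Fintype.card (ι × Ω → Fin (2 * Fintype.card (ι × Ω))) := by
      rw [Fintype.card_prod Ω, mul_assoc]
    -- lifting of an estimate on the fibres
    have hlift : ∀ P : ι × (Ω × (ι × Ω → Fin (2 * Fintype.card (ι × Ω)))) → Prop,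
        (∀ e, L * cnt (fun x : ι × Ω => P (x.1, (x.2, e)))
          ≤ 2 * (Fintype.card ι * Fintype.card Ω)) →
        L * cnt P ≤ 2 * (Fintype.card ι *
          Fintype.card (Ω × (ι × Ω → Fin (2 * Fintype.card (ι × Ω))))) := by
      intro P hP
      have h1 : cnt P ≤ cnt (fun z : (ι × Ω) × (ι × Ω → Fin (2 * Fintype.card (ι × Ω))) =>
          P (z.1.1, (z.1.2, z.2))) := by
        refine cnt_inj (fun x => ((x.1, x.2.1), x.2.2)) ?_ fun x hx => hx
        rintro ⟨a, b, c⟩ ⟨a', b', c'⟩ h
        simp only [Prod.mk.injEq] at h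
        obtain ⟨⟨rfl, rfl⟩, rfl⟩ := h
        rfl
      refine (Nat.mul_le_mul_left _ h1).trans ?_
      have h2 := cnt_prod_le (fun z : (ι × Ω) × (ι × Ω → Fin (2 * Fintype.card (ι × Ω))) =>
          P (z.1.1, (z.1.2, z.2))) L (2 * (Fintype.card ι * Fintype.card Ω)) hP
      refine h2.trans (le_of_eq ?_)
      rw [hcard]
      ring
    -- the main estimate
    have hmain : ∀ i, i < k + 1 → ∀ c, L * cnt (fun x : ι ×
        (Ω × (ι × Ω → Fin (2 * Fintype.card (ι × Ω)))) =>
        F x.1 * ((y' (k + 1) x.2 - y' i x.2 + c * D' x.2) / (1 + F x.1 * y' i x.2)) ∈ Z)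
          ≤ 2 * (Fintype.card ι *
            Fintype.card (Ω × (ι × Ω → Fin (2 * Fintype.card (ι × Ω))))) := by
      intro i hi c
      rcases Nat.lt_or_ge i k with hik | hik
      · apply hlift
        intro e
        have h := hcntc i hik ((1 + c) * φ e)
        refine le_trans (le_of_eq ?_) h
        congr 1
        apply cnt_congr
        intro x
        have e1 : y' (k + 1) (x.2, e) - y' i (x.2, e) + c * D' (x.2, e)
            = y k x.2 - y i x.2 + (1 + c) * φ e * D x.2 := by
          rw [hysucc, hyle i _ hik.le]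
          have h0 := hyle' i hik.le x.2
          simp only [hD']
          obtain ⟨d, hd⟩ := Nat.exists_eq_add_of_le h0
          rw [hd]
          have e2 : y i x.2 + d + D x.2 * φ e - y i x.2 = d + D x.2 * φ e := by omega
          have e3 : y i x.2 + d - y i x.2 = d := by omega
          rw [e2, e3]
          ring
        show F x.1 * ((y' (k + 1) (x.2, e) - y' i (x.2, e) + c * D' (x.2, e))
          / (1 + F x.1 * y' i (x.2, e))) ∈ Z ↔ _
        rw [e1, hyle i _ hik.le]
      · have hik' : i = k := by omega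
        subst hik'
        have h := avg_step F Z L hZ (fun a => 1 + F a.1 * y i a.2) (fun a => by omega)
          (fun ω => (1 + c) * D ω) (fun ω => Nat.mul_pos (by omega) (hD ω))
        refine le_trans (le_of_eq ?_) h
        congr 1
        apply cnt_congr
        intro x
        have e1 : y' (i + 1) x.2 - y' i x.2 + c * D' x.2
            = (1 + c) * D x.2.1 * φ x.2.2 := by
          rw [hysucc, hyle i _ le_rfl]
          simp only [hD']
          have e2 : y i x.2.1 + D x.2.1 * φ x.2.2 - y i x.2.1 = D x.2.1 * φ x.2.2 := by omega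
          rw [e2]
          ring
        rw [e1, hyle i _ le_rfl]
    refine ⟨Ω × (ι × Ω → Fin (2 * Fintype.card (ι × Ω))), inferInstance, inferInstance, y', D',
      fun x => Nat.mul_pos (hD _) (hφpos _), ?_, ?_, ?_, ?_, hmain⟩
    · intro i j hij hj x
      rcases Nat.lt_or_ge k j with h | h
      · have hj' : j = k + 1 := by omega
        subst hj'
        rw [hysucc, hyle i _ (by omega)]
        have h0 := hyle' i (by omega) x.1
        have h1 := Nat.mul_pos (hD x.1) (hφpos x.2)
        omega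
      · rw [hyle j _ h, hyle i _ (by omega)]
        exact hlt i j hij h x.1
    · intro i j hij hj x q
      rcases Nat.lt_or_ge k j with h | h
      · have hj' : j = k + 1 := by omega
        subst hj'
        rw [hysucc, hyle i _ (by omega)]
        rcases Nat.lt_or_ge i k with hik | hik
        · have h0 := hyle' i hik.le x.1
          have e2 : y k x.1 + D x.1 * φ x.2 - y i x.1
              = (y k x.1 - y i x.1) + D x.1 * φ x.2 := by omega
          rw [e2]
          exact dvd_add (hdvd i k hik le_rfl x.1 q) ((hdvdD i hik x.1 q).mul_right _)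
        · have hik' : i = k := by omega
          subst hik'
          have e2 : y i x.1 + D x.1 * φ x.2 - y i x.1 = D x.1 * φ x.2 := by omega
          rw [e2]
          exact (hφdvd x.2 q x.1).mul_left _
      · rw [hyle j _ h, hyle i _ (by omega)]
        exact hdvd i j hij h x.1 q
    · intro i hi x q
      rw [hyle i _ (by omega)]
      rcases Nat.lt_or_ge i k with hik | hik
      · exact (hdvdD i hik x.1 q).mul_right _
      · have hik' : i = k := by omega
        subst hik'
        exact (hφdvd x.2 q x.1).mul_left _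
    · intro i j hij hj
      rcases Nat.lt_or_ge k j with h | h
      · have hj' : j = k + 1 := by omega
        subst hj'
        have h0 := hmain i hij 0
        refine le_trans (le_of_eq ?_) h0
        congr 1
        apply cnt_congr
        intro x
        rw [Nat.zero_mul, Nat.add_zero (y' (k + 1) x.2 - y' i x.2)]
      · apply hlift
        intro e
        refine le_trans (le_of_eq ?_) (hcnt i j hij h)
        congr 1
        apply cnt_congr
        intro x
        show F x.1 * ((y' j (x.2, e) - y' i (x.2, e)) / (1 + F x.1 * y' i (x.2, e))) ∈ Z ↔ _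
        rw [hyle j _ h, hyle i _ (by omega)]

/-- **Chain lemma.** For every multiplicatively null set `Z` there are arbitrarily long chains of
divisors whose quotients minus one are positive and avoid `Z`. -/
theorem exists_chain (Z : Set ℕ) (hZ : Null Z) (K : ℕ) :
    ∃ x : ℕ → ℕ, (∀ i, 0 < x i) ∧
      ∀ i j, i < j → j ≤ K → ∃ b, 0 < b ∧ b ∉ Z ∧ x j = x i * (b + 1) := by
  classical
  obtain ⟨ι, hι, hι', F, hF, hFZ⟩ := hZ (2 * ((K + 1) * (K + 1)) + 1)
  obtain ⟨Ω, hΩ, hΩ', y, D, hD, hlt, hdvd, -, hcnt, -⟩ :=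
    chain_aux F Z (2 * ((K + 1) * (K + 1)) + 1) hFZ K
  set P : Finset (ℕ × ℕ) :=
    ((range (K + 1)) ×ˢ (range (K + 1))).filter fun p => p.1 < p.2 with hP
  set B : ℕ × ℕ → ι × Ω → Prop := fun p x =>
    F x.1 * ((y p.2 x.2 - y p.1 x.2) / (1 + F x.1 * y p.1 x.2)) ∈ Z with hB
  have hPcard : P.card ≤ (K + 1) * (K + 1) := by
    refine (card_filter_le _ _).trans ?_
    rw [card_product, card_range]
  have hex : ∃ x : ι × Ω, ∀ p ∈ P, ¬ B p x := by
    by_contra hcon
    push Not at hcon
    have h1 : Fintype.card (ι × Ω) ≤ ∑ p ∈ P, cnt (B p) := by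
      have h2 : (univ : Finset (ι × Ω)) ⊆ P.biUnion fun p => univ.filter (B p) := by
        intro x _
        obtain ⟨p, hp, hx⟩ := hcon x
        exact mem_biUnion.2 ⟨p, hp, mem_filter.2 ⟨mem_univ _, hx⟩⟩
      have h3 := (card_le_card h2).trans card_biUnion_le
      rw [card_univ] at h3
      refine h3.trans (le_of_eq ?_)
      exact Finset.sum_congr rfl fun p _ => (cnt_def _).symm
    have h4 : (2 * ((K + 1) * (K + 1)) + 1) * Fintype.card (ι × Ω)
        ≤ ∑ _p ∈ P, 2 * (Fintype.card ι * Fintype.card Ω) := by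
      refine (Nat.mul_le_mul_left _ h1).trans ?_
      rw [Finset.mul_sum]
      refine Finset.sum_le_sum fun p hp => ?_
      rw [hP, mem_filter, mem_product, mem_range, mem_range] at hp
      exact hcnt p.1 p.2 hp.2 (by omega)
    rw [Finset.sum_const, smul_eq_mul, ← Fintype.card_prod] at h4
    have h5 : 0 < Fintype.card (ι × Ω) := Fintype.card_pos
    have h6 : P.card * (2 * Fintype.card (ι × Ω))
        ≤ (K + 1) * (K + 1) * (2 * Fintype.card (ι × Ω)) := Nat.mul_le_mul_right _ hPcard
    nlinarith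
  obtain ⟨⟨q, ω⟩, hx⟩ := hex
  refine ⟨fun i => 1 + F q * y i ω, fun i => Nat.add_pos_left Nat.one_pos _, fun i j hij hj => ?_⟩
  have hdv := hdvd i j hij hj ω q
  have hl := hlt i j hij hj ω
  refine ⟨F q * ((y j ω - y i ω) / (1 + F q * y i ω)), ?_, ?_, ?_⟩
  · apply Nat.mul_pos (hF q)
    exact Nat.div_pos (Nat.le_of_dvd (by omega) hdv) (by omega)
  · exact hx (i, j) (mem_filter.2 ⟨mem_product.2
      ⟨mem_range.2 (by omega), mem_range.2 (by omega)⟩, hij⟩)
  · show 1 + F q * y j ω = (1 + F q * y i ω)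
      * (F q * ((y j ω - y i ω) / (1 + F q * y i ω)) + 1)
    obtain ⟨d, hd⟩ := hdv
    have hu : 0 < 1 + F q * y i ω := by omega
    rw [hd, Nat.mul_div_cancel_left _ hu]
    have e : y j ω = y i ω + (1 + F q * y i ω) * d := by omega
    rw [e]
    ring

/-- **The pattern `a, b, a (b + 1)` is partition regular.** -/
theorem main (r : ℕ) (c : ℕ → Fin r) :
    ∃ a b : ℕ, 0 < a ∧ 0 < b ∧ c a = c b ∧ c a = c (a * (b + 1)) := by
  classical
  set E : Fin r → Set ℕ := fun l => {n | c n = l} with hE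
  have hnull := Null.biUnion (univ.filter fun l => Null (E l)) E fun l hl => (mem_filter.1 hl).2
  obtain ⟨K, hK⟩ := exists_large (univ.filter fun l => ¬ Null (E l)) E
    (fun l hl => (mem_filter.1 hl).2) 2
  obtain ⟨x, hx, hchain⟩ := exists_chain _ hnull K
  obtain ⟨J, hJ, hJ2, hJl⟩ := hK (range (K + 1)) (by rw [card_range]; omega) x fun i _ => hx i
  obtain ⟨i, hi, j, hj, hij⟩ := one_lt_card.1 (by omega : 1 < J.card)
  have hmain : ∀ i j, i ∈ J → j ∈ J → i < j →
      ∃ a b : ℕ, 0 < a ∧ 0 < b ∧ c a = c b ∧ c a = c (a * (b + 1)) := by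
    intro i j hi hj hij
    have hjK : j ≤ K := by
      have := mem_range.1 (hJ hj)
      omega
    obtain ⟨b, hb, hbZ, hxj⟩ := hchain i j hij hjK
    have hb' : ¬ Null (E (c b)) := by
      intro h
      exact hbZ ⟨c b, mem_filter.2 ⟨mem_univ _, h⟩, rfl⟩
    obtain ⟨t, ht, htJ⟩ := hJl (c b) (mem_filter.2 ⟨mem_univ _, hb'⟩)
    have h1 : c (t * x i) = c b := htJ i hi
    have h2 : c (t * x j) = c b := htJ j hj
    refine ⟨t * x i, b, Nat.mul_pos ht (hx i), hb, h1, ?_⟩
    rw [h1, ← h2, hxj, mul_assoc]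
  rcases Nat.lt_or_gt_of_ne hij with h | h
  · exact hmain i j hi hj h
  · exact hmain j i hj hi h

end Pool.Agent.Run7.h690.AB
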